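import Pool.Agent.Y69.WhFinal

/-!
# Rational injectivity of the assembly map for Whitehead groups and finite subgroups

For every group `G` the canonical map `colim Wh(H) → Wh(G)`, the colimit being over the finite
subgroups `H` of `G` (and the maps given by conjugation with elements of `G`), is injective after
tensoring with the rational numbers. There is no hypothesis on `G`.

The definitions are in `Pool.Agent.Y69.WhDef`: `Wh G` is `K₁(ℤ[G]) / {±g}`, `ColimWh G` is
`colim Wh(H)` over the finite subgroups `H` of `G`, and `assembly G : ColimWh G → Wh G` is the map
induced by the inclusions `H → G`.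
-/

/-- For every group `G`, an element of `colim Wh(H)` (colimit over the finite subgroups `H` of `G`)
whose image in `Wh(G)` has finite order has finite order. -/
theorem Pool.Agent.Results.MP_9d1ffa_al.ColimWhiteheadInjective.result
    (G : Type) [Group G] (x : Pool.Agent.Y69.FJ.ColimWh G) (n : ℕ) (hn : 0 < n)
    (hx : n • Pool.Agent.Y69.FJ.assembly G x = 0) : ∃ k : ℕ, 0 < k ∧ k • x = 0 :=
  Pool.Agent.Y69.FJ.main G x n hn hx
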