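import Pool.Agent.Y477.IW.UFin

/-!
Let the group `Γ` act on a group `N` and on a set `X` with finite point stabilizers, let `e_S`
(`S ⊆ X`) be compatible retractions of `N`, and let `C` be an invariant set of finite subsets of `X`,
closed under subsets, with finite parts `N_S`, `S ∈ C` (for instance, `N` the graph product of finite
groups over an invariant graph with vertex set `X` and `C` the finite cliques). The map from the
colimit of the quadratic L-groups `L₀(A[H]; ε)` over the finite subgroups `H` of `N ⋊ Γ` to
`L₀(A[N ⋊ Γ]; ε)` is injective on the part of the colimit given by the groups `N_S`, up to the orders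
of the finite subgroups of `Γ`, and modulo `L₀(A[Γ]; ε)`; if every finite subgroup of `N ⋊ Γ` is
conjugate into some `N_S`, it is injective.
-/

namespace Pool.Agent.Results.MP_9d1ffa_al.FiniteSubgroupsLZero

open Pool.Agent.Y477.IW CategoryTheory

theorem result (Γ N X : Type) [Group Γ] [Group N] [MulAction Γ X]
    (hst : ∀ v : X, Finite (MulAction.stabilizer Γ v)) (φ : Γ →* MulAut N) (us : USupp φ X)
    (C : Set (Finset X)) (hC : IsFamily Γ C) (hfin : ∀ S ∈ C, Finite (us.part (S : Set X)))
    (A : Type) [Ring A] [StarRing A] (ε : ℤˣ) : ColimitEmbeds (lgr_inner A ε) us C :=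
  col_l us A ε hst hC hfin

end Pool.Agent.Results.MP_9d1ffa_al.FiniteSubgroupsLZero
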