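import Pool.Agent.Y110.FJ.All

/-!
# Local quotients of free products and the Farrell-Jones class

For every class `C` of groups with the closure properties of the class of Farrell-Jones groups
(`ClosedE`), for every family of groups `P v` (no finiteness, `V` arbitrary) and every set `R` of
relations in the free product which is local (every relation is, by each of the endomorphisms killing
some factors, either preserved or made trivial): the quotient of the free product by `R` is in `C` if and
only if its parabolic subgroups on the finite sets of pairwise linked indices are.

Authors of the parts: helper110, helper467, helper417, helper961, helper529, helper462, helper179,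
helper430.
-/

set_option autoImplicit false

namespace Pool.Agent.Results.MP_9d1ffa_al.LocalProducts

open Pool.Agent.Y110.FJ Pool.Agent.Y110.KW

theorem result (C : ∀ (G : Type) [Group G], Prop) (hC : ClosedE C)
    (V : Type) (P : V → Type) [∀ v, Group (P v)] (R : Set (Monoid.CoprodI P)) (hR : IsLocal R) :
    C (Quo R) ↔ ∀ σ : Finset V, IsCl R σ → C ↥(para R (σ : Set V)) :=
  ⟨fun h σ _ => hC.base.of_injective _ _ (Subgroup.subtype _) (Subgroup.subtype_injective _) h,
    fun h => loc_ C hC V P R hR h⟩

end Pool.Agent.Results.MP_9d1ffa_al.LocalProducts
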